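import Pool.Agent.Lib_PLQ.Main2

/-!
MP_ee0a5d_co, Q1 (full answer): for every number `k` of diffuse reflections,
`M_k(n) = O_k(n ^ 2)`.
-/

open Pool.Agent.Lib_PL

/-- For every `k` there is a constant `c` such that for every simple polygon `P` with `n` edges and
every light source `p` in `P` the boundary of the region `V_k(P, p)` lit with at most `k` diffuse
reflections is a planar subdivision with at most `c * n ^ 2` vertices and edges. -/
theorem Pool.Agent.Results.MP_ee0a5d_co.SquareBound.result :
    ∀ k : ℕ, ∃ c : ℕ, ∀ (n : ℕ) (P : SimplePolygon n), ∀ p ∈ P.region,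
      ∃ (Q : Finset ℂ) (T : Finset (ℂ × ℂ)), Q.card + T.card ≤ c * n ^ 2 ∧
        IsSubdiv (frontier (P.litRegion p k)) Q T :=
  main_final2
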